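import Pool.Agent.Q280.Ritt.Transfer

set_option autoImplicit false

open LaurentPolynomial Finset Filter Topology
open Pool.Agent.Q280.Ritt

namespace Pool.Agent.Results.MP_e7950b_an.SymmetricNonincreasingRitt

/-- The set of `k` at which the maximal function of order `m`,
`sup_{n ≥ 1} n^m |μ^{*n} * (δ₀ - μ)^{*m} * f (k)|`, is at least `lam`. -/
def levelSet (μ : ℤ → ℝ) (m : ℕ) {E : Type} [NormedAddCommGroup E] [NormedSpace ℝ E]
    (f : ℤ → E) (lam : ℝ) : Set ℤ :=
  {k : ℤ | ENNReal.ofReal lam ≤ ⨆ n : ℕ, ⨆ _ : 1 ≤ n, ENNReal.ofReal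
    ((n : ℝ) ^ m * ‖conv (cpow μ n) (conv (cpow (fun j => dirac j - μ j) m) f) k‖)}

lemma abs_summable {μ : ℤ → ℝ} (h : SymNoninc μ) : Summable fun j => |μ j| := by
  simp only [abs_of_nonneg (h.nonneg _)]
  exact h.hasSum.summable

lemma dirac_bound (x : ℤ) : ‖dirac x‖ ≤ 1 := by
  unfold dirac
  split_ifs <;> simp

lemma ritt (μ : ℤ → ℝ) (h : SymNoninc μ) (n : ℕ) (F : Finset ℤ) :
    ∑ x ∈ F, |cpow μ n x - cpow μ (n + 1) x| ≤ 648 / (n + 1) := by
  have hlim : ∀ x, Tendsto (fun R => ((trunc μ R) ^ n * (1 - trunc μ R)).coeff x) atTop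
      (𝓝 (cpow μ n x - cpow μ (n + 1) x)) := by
    intro x
    have h1 := tendsto_main h dirac_bound n 0 x
    have h2 := tendsto_main h dirac_bound (n + 1) 0 x
    have h3 := h1.sub h2
    simp only [pow_zero, mul_one, Function.iterate_zero, id_eq] at h3
    refine Tendsto.congr (fun R => ?_) h3
    rw [act_dirac, act_dirac, mul_sub, mul_one, pow_succ, AddMonoidAlgebra.coeff_sub,
      Finsupp.sub_apply]
  have h4 : Tendsto (fun R => ∑ x ∈ F, |((trunc μ R) ^ n * (1 - trunc μ R)).coeff x|) atTop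
      (𝓝 (∑ x ∈ F, |cpow μ n x - cpow μ (n + 1) x|)) :=
    tendsto_finsetSum _ fun x _ => (hlim x).abs
  exact le_of_tendsto h4 (Eventually.of_forall fun R =>
    dom_l1 (main_one (uni_trunc h R) (mass_trunc μ R) n) F)

lemma pointwise (μ : ℤ → ℝ) (h : SymNoninc μ) (n m : ℕ) {E : Type} [NormedAddCommGroup E]
    [NormedSpace ℝ E] [CompleteSpace E] (f : ℤ → E) (hf : Summable fun k => ‖f k‖) (x : ℤ) (A : ℝ)
    (hA : ∀ r : ℕ, ∑ j ∈ Icc (-(r:ℤ)) r, ‖f (x - j)‖ ≤ A * (2 * r + 1)) :
    ‖conv (cpow μ n) (conv (cpow (fun j => dirac j - μ j) m) f) x‖ ≤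
      (648 * m / (n + 1)) ^ m * A := by
  have hμ := abs_summable h
  have hB : ∀ x, ‖f x‖ ≤ ∑' k, ‖f k‖ := fun x => hf.le_tsum x fun _ _ => norm_nonneg _
  have hν : Summable fun j => |dirac j - μ j| := by
    apply Summable.of_nonneg_of_le (fun j => abs_nonneg _) (fun j => abs_sub _ _)
      (dirac_summable.add hμ)
  rw [conv_cpow hν hB m]
  obtain ⟨B', hB'⟩ := conv_iterate_bound hν hB m
  rw [conv_cpow hμ hB' n]
  have h1 := (tendsto_main h hB n m x).norm
  exact le_of_tendsto h1 (Eventually.of_forall fun R =>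
    act_bound (main_m (uni_trunc h R) (mass_trunc μ R) n m) f x hA)

lemma card_bound (μ : ℤ → ℝ) (h : SymNoninc μ) (m : ℕ) {E : Type} [NormedAddCommGroup E]
    [NormedSpace ℝ E] [CompleteSpace E] (f : ℤ → E) (hf : Summable fun k => ‖f k‖)
    {lam : ℝ} (hlam : 0 < lam) (F : Finset ℤ) (hF : ∀ x ∈ F, x ∈ levelSet μ m f lam) :
    lam * (F.card : ℝ) ≤ 2 * (648 * (m : ℝ)) ^ m * ∑' k, ‖f k‖ := by
  set C : ℝ := (648 * (m : ℝ)) ^ m with hC
  have hCpos : 0 < C := by
    rcases Nat.eq_zero_or_pos m with rfl | hm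
    · simp [hC]
    · have : (0:ℝ) < m := by exact_mod_cast hm
      positivity
  -- enough for every smaller level
  have key : ∀ l : ℝ, 0 < l → l < lam → l * (F.card : ℝ) ≤ 2 * C * ∑' k, ‖f k‖ := by
    intro l hl hll
    have hw := weak (fun k => ‖f k‖) (fun k => norm_nonneg _) hf (A := l / C) (by positivity) F
      (fun x hx => by
        by_contra hcon
        push Not at hcon
        have hA : ∀ r : ℕ, ∑ j ∈ Icc (-(r:ℤ)) r, ‖f (x - j)‖ ≤ (l / C) * (2 * r + 1) := by
          intro r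
          refine le_trans (le_of_eq ?_) (hcon r).le
          refine Finset.sum_bij' (fun j _ => x - j) (fun y _ => x - y) ?_ ?_ ?_ ?_ ?_
          · intro j hj; simp only [Finset.mem_Icc] at hj ⊢; omega
          · intro j hj; simp only [Finset.mem_Icc] at hj ⊢; omega
          · intro j _; simp
          · intro j _; simp
          · intro j _; rfl
        have hx' := hF x hx
        unfold levelSet at hx'
        rw [Set.mem_ofPred_eq] at hx'
        have hlt : ENNReal.ofReal l < ENNReal.ofReal lam := (ENNReal.ofReal_lt_ofReal_iff hlam).mpr hll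
        have h2 := hlt.trans_le hx'
        rw [lt_iSup_iff] at h2
        obtain ⟨n, h2⟩ := h2
        rw [lt_iSup_iff] at h2
        obtain ⟨hn, h2⟩ := h2
        have h3 := pointwise μ h n m f hf x (l / C) hA
        have h4 : (n : ℝ) ^ m * ‖conv (cpow μ n) (conv (cpow (fun j => dirac j - μ j) m) f) x‖ ≤ l := by
          have h5 : (n : ℝ) ^ m * ((648 * m / (n + 1)) ^ m * (l / C)) ≤ l := by
            rw [← mul_assoc, ← mul_pow]
            have h6 : (n : ℝ) * (648 * m / (n + 1)) ≤ 648 * m := by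
              rw [mul_div_assoc', div_le_iff₀ (by positivity)]
              nlinarith [Nat.cast_nonneg (α := ℝ) m]
            have h7 : ((n : ℝ) * (648 * m / (n + 1))) ^ m ≤ C :=
              pow_le_pow_left₀ (by positivity) h6 m
            calc ((n : ℝ) * (648 * m / (n + 1))) ^ m * (l / C) ≤ C * (l / C) :=
                  mul_le_mul_of_nonneg_right h7 (by positivity)
              _ = l := by field_simp
          exact (mul_le_mul_of_nonneg_left h3 (by positivity)).trans h5
        exact absurd (h2.trans_le (ENNReal.ofReal_le_ofReal h4)) (lt_irrefl _))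
    have e : l * (F.card : ℝ) = C * (l / C * F.card) := by field_simp
    rw [e]
    calc C * (l / C * F.card) ≤ C * (2 * ∑' k, ‖f k‖) := mul_le_mul_of_nonneg_left hw hCpos.le
      _ = _ := by ring
  by_contra hcon
  push Not at hcon
  have hS : 0 ≤ ∑' k, ‖f k‖ := tsum_nonneg fun _ => norm_nonneg _
  have hcard : 0 < (F.card : ℝ) := by
    by_contra h0
    have : (F.card : ℝ) = 0 := le_antisymm (not_lt.mp h0) (Nat.cast_nonneg _)
    rw [this, mul_zero] at hcon
    have : 0 ≤ 2 * C * ∑' k, ‖f k‖ := by positivity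
    linarith
  set X := 2 * C * ∑' k, ‖f k‖ with hX
  have hX0 : 0 ≤ X := by positivity
  have h1 : X / F.card < lam := by rw [div_lt_iff₀ hcard]; exact hcon
  set l := (X / F.card + lam) / 2 with hl
  have hl0 : 0 < l := by
    have : 0 ≤ X / F.card := by positivity
    linarith
  have h2 := key l hl0 (by linarith)
  have h3 : X < l * F.card := by
    have : X / F.card < l := by linarith
    rwa [div_lt_iff₀ hcard] at this
  linarith

/-- Every symmetric probability measure on `ℤ` that is non-increasing on `ℕ` is Ritt (with constant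
`648`), and satisfies the weak type maximal inequality of every order `m` (with constant
`2 (648 m)^m`). -/
theorem result :
    (∀ μ : ℤ → ℝ, SymNoninc μ → ∀ n : ℕ, 1 ≤ n →
      Summable (fun k => |cpow μ n k - cpow μ (n + 1) k|) ∧
      (n : ℝ) * ∑' k, |cpow μ n k - cpow μ (n + 1) k| ≤ 648) ∧
    (∀ μ : ℤ → ℝ, SymNoninc μ → ∀ m : ℕ,
      ∀ (E : Type) [NormedAddCommGroup E] [NormedSpace ℝ E] [CompleteSpace E] (f : ℤ → E),
      Summable (fun k => ‖f k‖) → ∀ lam : ℝ, 0 < lam →
        (levelSet μ m f lam).Finite ∧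
        lam * ((levelSet μ m f lam).ncard : ℝ) ≤ 2 * (648 * (m : ℝ)) ^ m * ∑' k, ‖f k‖) := by
  constructor
  · intro μ h n hn
    have hn' : (0:ℝ) < n := by exact_mod_cast hn
    have hb := ritt μ h n
    have hs : Summable (fun k => |cpow μ n k - cpow μ (n + 1) k|) :=
      summable_of_sum_le (fun _ => abs_nonneg _) hb
    refine ⟨hs, ?_⟩
    have h1 : ∑' k, |cpow μ n k - cpow μ (n + 1) k| ≤ 648 / (n + 1) := hs.tsum_le_of_sum_le hb
    calc (n : ℝ) * ∑' k, |cpow μ n k - cpow μ (n + 1) k| ≤ n * (648 / (n + 1)) :=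
          mul_le_mul_of_nonneg_left h1 hn'.le
      _ ≤ 648 := by
          rw [mul_div_assoc', div_le_iff₀ (by positivity)]
          linarith
  · intro μ h m E _ _ _ f hf lam hlam
    have hb := card_bound μ h m f hf hlam
    have hfin : (levelSet μ m f lam).Finite := by
      by_contra hinf
      have hinf' : (levelSet μ m f lam).Infinite := hinf
      obtain ⟨N, hN⟩ := exists_nat_gt ((2 * (648 * (m : ℝ)) ^ m * ∑' k, ‖f k‖) / lam)
      obtain ⟨F, hF, hcard⟩ := hinf'.exists_subset_card_eq N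
      have h1 := hb F (fun x hx => hF hx)
      rw [hcard] at h1
      rw [div_lt_iff₀ hlam] at hN
      linarith
    refine ⟨hfin, ?_⟩
    have h1 := hb hfin.toFinset (fun x hx => by simpa using hx)
    rwa [Set.ncard_eq_toFinset_card _ hfin]

end Pool.Agent.Results.MP_e7950b_an.SymmetricNonincreasingRitt
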